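import Mathlib

/-!
Groups of prime exponent `p ≥ 5` and nilpotency class at most two: every such group is the derived
subgroup of some group.
-/

open scoped commutatorElement

namespace Pool.Agent.U171.Integral

universe u

variable {G : Type u} [Group G]

/-- the commutator as an element of the centre (class at most two) -/
def kap (h2 : ∀ x y z : G, ⁅⁅x, y⁆, z⁆ = 1) (x y : G) : Subgroup.center G :=
  ⟨⁅x, y⁆, by
    rw [Subgroup.mem_center_iff]
    intro g
    have := h2 x y g
    rw [commutatorElement_eq_one_iff_mul_comm] at this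
    exact this.symm⟩

variable (h2 : ∀ x y z : G, ⁅⁅x, y⁆, z⁆ = 1)

theorem cen (z : Subgroup.center G) (g : G) : (z : G) * g = g * z :=
  ((Subgroup.mem_center_iff.1 z.2) g).symm

theorem ccomm (a b : Subgroup.center G) : a * b = b * a :=
  Subtype.ext (cen a b)

theorem cmul_pow (a b : Subgroup.center G) (n : ℕ) : (a * b) ^ n = a ^ n * b ^ n :=
  Commute.mul_pow (ccomm a b) n

theorem mul_kap (x y : G) : x * y = y * x * kap h2 x y := by
  have h : (kap h2 x y : G) = x * y * x⁻¹ * y⁻¹ := rfl
  rw [← cen, h]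
  group

theorem kap_mul_left (x y z : G) : kap h2 (x * y) z = kap h2 x z * kap h2 y z := by
  apply Subtype.ext
  have hx := cen (kap h2 y z) x
  have e : (kap h2 (x * y) z : G) = x * (kap h2 y z : G) * (z * x⁻¹ * z⁻¹) := by
    change x * y * z * (x * y)⁻¹ * z⁻¹ = x * (y * z * y⁻¹ * z⁻¹) * (z * x⁻¹ * z⁻¹)
    group
  rw [e, ← hx]
  have : (kap h2 x z : G) = x * (z * x⁻¹ * z⁻¹) := by
    change x * z * x⁻¹ * z⁻¹ = _
    group
  rw [mul_assoc, ← this, Subgroup.coe_mul, cen]

theorem kap_symm (x y : G) : kap h2 y x = (kap h2 x y)⁻¹ := by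
  apply Subtype.ext
  rw [Subgroup.coe_inv]
  change y * x * y⁻¹ * x⁻¹ = (x * y * x⁻¹ * y⁻¹)⁻¹
  group

theorem kap_mul_right (x y z : G) : kap h2 x (y * z) = kap h2 x y * kap h2 x z := by
  rw [kap_symm h2 (y * z) x, kap_mul_left, kap_symm h2 x y, kap_symm h2 x z, mul_inv_rev, inv_inv,
    inv_inv]
  exact ccomm (kap h2 x z) (kap h2 x y)

theorem kap_cen_left (z : Subgroup.center G) (x : G) : kap h2 (z : G) x = 1 := by
  apply Subtype.ext
  change (z : G) * x * (z : G)⁻¹ * x⁻¹ = 1
  rw [cen]
  group

theorem kap_cen_right (z : Subgroup.center G) (x : G) : kap h2 x (z : G) = 1 := by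
  rw [kap_symm h2 z x, kap_cen_left, inv_one]

theorem kap_self (x : G) : kap h2 x x = 1 := by
  apply Subtype.ext
  change x * x * x⁻¹ * x⁻¹ = 1
  group

theorem kap_pow_self (x : G) (n : ℕ) : kap h2 (x ^ n) x = 1 := by
  induction n with
  | zero =>
    rw [pow_zero]
    exact kap_cen_left h2 1 x
  | succ n ih => rw [pow_succ, kap_mul_left, ih, kap_self, mul_one]

section add

variable (p h : ℕ) (hp : ∀ x : G, x ^ p = 1) (hh : 2 * h = p + 1)

include hp in
theorem cpow (z : Subgroup.center G) : z ^ p = 1 := by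
  apply Subtype.ext
  rw [Subgroup.coe_pow, hp]
  rfl

/-- the Baer sum -/
def badd (x y : G) : G := x * y * ((kap h2 y x ^ h : Subgroup.center G) : G)

include hp hh in
theorem badd_comm (x y : G) : badd h2 h x y = badd h2 h y x := by
  unfold badd
  rw [mul_kap h2 x y, mul_assoc (y * x)]
  congr 1
  rw [← Subgroup.coe_mul]
  congr 1
  rw [kap_symm h2 x y, inv_pow, mul_inv_eq_iff_eq_mul, ← pow_add, ← two_mul, hh, pow_succ,
    cpow p hp, one_mul]

theorem badd_assoc (x y z : G) : badd h2 h (badd h2 h x y) z = badd h2 h x (badd h2 h y z) := by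
  unfold badd
  simp only [kap_mul_left, kap_mul_right, kap_cen_left, kap_cen_right, mul_one, cmul_pow,
    Subgroup.coe_mul]
  have e1 := cen (kap h2 y x ^ h) z
  rw [mul_assoc (x * y) _ z, e1]
  have e2 := cen (kap h2 y x ^ h) ((kap h2 z y ^ h : Subgroup.center G) : G)
  have e3 := cen (kap h2 z x ^ h) ((kap h2 z y ^ h : Subgroup.center G) : G)
  simp only [mul_assoc]
  congr 3
  rw [e3, ← mul_assoc, e2, mul_assoc]

theorem badd_one (x : G) : badd h2 h x 1 = x := by
  unfold badd
  have : kap h2 1 x = 1 := kap_cen_left h2 1 x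
  rw [this, one_pow]
  simp

theorem one_badd (x : G) : badd h2 h 1 x = x := by
  unfold badd
  have : kap h2 x 1 = 1 := kap_cen_right h2 1 x
  rw [this, one_pow]
  simp

theorem inv_badd (x : G) : badd h2 h x⁻¹ x = 1 := by
  unfold badd
  have : kap h2 x x⁻¹ = 1 := by
    apply Subtype.ext
    change x * x⁻¹ * x⁻¹ * x⁻¹⁻¹ = 1
    group
  rw [this, one_pow]
  simp

theorem pow_badd (x : G) (n : ℕ) : badd h2 h (x ^ n) x = x ^ (n + 1) := by
  unfold badd
  rw [kap_symm h2 (x ^ n) x, kap_pow_self, inv_one, one_pow]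
  simp [pow_succ]

/-- the additive group of the Baer correspondence -/
@[reducible] def bgroup : AddCommGroup G where
  add := badd h2 h
  add_assoc := badd_assoc h2 h
  zero := 1
  zero_add := one_badd h2 h
  add_zero := badd_one h2 h
  nsmul := fun n x => x ^ n
  nsmul_zero := fun x => pow_zero x
  nsmul_succ := fun n x => (pow_badd h2 h x n).symm
  neg := fun x => x⁻¹
  zsmul := @zsmulRec G ⟨(1 : G)⟩ ⟨badd h2 h⟩ ⟨fun x => x⁻¹⟩ (fun n x => x ^ n)
  zsmul_zero' := fun x => pow_zero x
  zsmul_succ' := fun n x => (pow_badd h2 h x n).symm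
  zsmul_neg' := fun n x => rfl
  neg_add_cancel := inv_badd h2 h
  add_comm := badd_comm h2 p h hp hh

include h2 in
theorem comm_le_center : commutator G ≤ Subgroup.center G := by
  rw [commutator_def, Subgroup.commutator_le]
  intro x _ y _
  exact (kap h2 x y).2

include hp hh in
/-- projection onto the derived subgroup along an additive complement -/
theorem exists_proj (hpr : p.Prime) : ∃ π : G → Subgroup.center G,
    (∀ x : G, (π x : G) ∈ commutator G) ∧
    (∀ z : Subgroup.center G, (z : G) ∈ commutator G → π z = z) ∧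
    ∀ x y : G, π (badd h2 h x y) = π x * π y := by
  have : Fact p.Prime := ⟨hpr⟩
  let inst : AddCommGroup G := bgroup h2 p h hp hh
  let _ : Module (ZMod p) G := AddCommGroup.zmodModule (n := p) (fun x => hp x)
  have hk : ∀ x y : G, (kap h2 x y : G) ∈ commutator G := fun x y =>
    Subgroup.commutator_mem_commutator (Subgroup.mem_top x) (Subgroup.mem_top y)
  let Z : AddSubgroup G :=
    { carrier := commutator G
      add_mem' := by
        intro a b ha hb
        change badd h2 h a b ∈ commutator G
        refine mul_mem (mul_mem ha hb) ?_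
        rw [Subgroup.coe_pow]
        exact pow_mem (hk b a) h
      zero_mem' := one_mem (commutator G)
      neg_mem' := by
        intro a ha
        exact (commutator G).inv_mem ha }
  let D : Submodule (ZMod p) G := AddSubgroup.toZModSubmodule p Z
  obtain ⟨D', hD'⟩ := Submodule.exists_isCompl D
  have hmem' : ∀ x : D, (x : G) ∈ commutator G := fun x => x.2
  have hmem : ∀ x : D, (x : G) ∈ Subgroup.center G := fun x => comm_le_center h2 (hmem' x)
  refine ⟨fun x => ⟨(D.projectionOnto D' hD' x : G), hmem _⟩, fun x => hmem' _, ?_, ?_⟩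
  · intro z hz0
    apply Subtype.ext
    have hz : (z : G) ∈ D := hz0
    have := Submodule.projectionOnto_apply_left hD' (⟨(z : G), hz⟩ : D)
    have e := congrArg Subtype.val this
    exact e
  · intro x y
    apply Subtype.ext
    have e := map_add (D.projectionOnto D' hD') x y
    have e' := congrArg Subtype.val e
    change ((D.projectionOnto D' hD' (badd h2 h x y) : D) : G) = _ at e' ⊢
    rw [e']
    change badd h2 h ((D.projectionOnto D' hD' x : D) : G)
      ((D.projectionOnto D' hD' y : D) : G) = _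
    unfold badd
    rw [kap_cen_left h2 ⟨((D.projectionOnto D' hD' y : D) : G), hmem _⟩, one_pow]
    simp

variable (π : G → Subgroup.center G) (hπz : ∀ z : Subgroup.center G, (z : G) ∈ commutator G → π z = z)
  (hπc : ∀ x : G, (π x : G) ∈ commutator G)
  (hπa : ∀ x y : G, π (badd h2 h x y) = π x * π y)

theorem badd_cen (x : G) (z : Subgroup.center G) : badd h2 h x z = x * z := by
  unfold badd
  rw [kap_cen_left, one_pow]
  simp

theorem kap_mem (x y : G) : (kap h2 x y : G) ∈ commutator G :=
    Subgroup.commutator_mem_commutator (Subgroup.mem_top x) (Subgroup.mem_top y)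

include hπz hπa in
theorem pi_mul (x y : G) : π (x * y) = π x * π y * kap h2 x y ^ h := by
  have e : x * y = badd h2 h (badd h2 h x y) ((kap h2 x y ^ h : Subgroup.center G) : G) := by
    rw [badd_cen]
    unfold badd
    rw [mul_assoc, ← Subgroup.coe_mul, ← cmul_pow, kap_symm h2 x y, inv_mul_cancel, one_pow]
    simp
  rw [e, hπa, hπa, hπz (kap h2 x y ^ h)]
  rw [Subgroup.coe_pow]
  exact pow_mem (kap_mem h2 x y) h

include hπz hπa in
theorem pi_mul_cen (x : G) (z : Subgroup.center G) (hz : (z : G) ∈ commutator G) :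
    π (x * z) = π x * z := by
  rw [pi_mul h2 h π hπz hπa, kap_cen_right, one_pow, mul_one, hπz z hz]

include hπz in
theorem pi_one : π 1 = 1 := hπz 1 (one_mem _)

include hπz hπa in
theorem pi_inv (x : G) : π x⁻¹ = (π x)⁻¹ := by
  have e := hπa x⁻¹ x
  rw [inv_badd, pi_one π hπz] at e
  exact eq_inv_of_mul_eq_one_left e.symm

/-- the involution -/
def phi (x : G) : G := x⁻¹ * ((π x ^ 2 : Subgroup.center G) : G)

include hπz hπa hp hh in
theorem phi_mul (x y : G) : phi π (x * y) = phi π x * phi π y := by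
  unfold phi
  have e1 : π (x * y) ^ 2 = π x ^ 2 * π y ^ 2 * kap h2 x y := by
    rw [pi_mul h2 h π hπz hπa, cmul_pow, cmul_pow, ← pow_mul, mul_comm h 2, hh,
      pow_succ (kap h2 x y) p, cpow p hp, one_mul]
  have e2 : (x * y)⁻¹ * (kap h2 x y : G) = x⁻¹ * y⁻¹ := by
    rw [mul_kap h2 x y, mul_inv_rev, mul_inv_rev, mul_assoc, ← cen (kap h2 x y) (x⁻¹ * y⁻¹),
      inv_mul_cancel_left]
  rw [e1, ccomm (π x ^ 2 * π y ^ 2) (kap h2 x y), Subgroup.coe_mul, ← mul_assoc, e2,
    Subgroup.coe_mul]
  have e3 := cen (π x ^ 2) y⁻¹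
  rw [mul_assoc, ← mul_assoc y⁻¹, ← e3]
  simp only [mul_assoc]

include hπz hπc hπa in
theorem phi_phi (x : G) : phi π (phi π x) = x := by
  unfold phi
  have h2m : ((π x ^ 2 : Subgroup.center G) : G) ∈ commutator G := by
    rw [Subgroup.coe_pow]
    exact pow_mem (hπc x) 2
  have e1 : π (x⁻¹ * ((π x ^ 2 : Subgroup.center G) : G)) = π x := by
    rw [pi_mul_cen h2 h π hπz hπa _ _ h2m, pi_inv h2 h π hπz hπa, pow_two, inv_mul_cancel_left]
  rw [e1, mul_inv_rev, inv_inv, ← Subgroup.coe_inv, mul_assoc, ← cen, Subgroup.coe_inv,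
    inv_mul_cancel_left]

include hp hh hπz hπa hπc in
/-- the involution as an automorphism -/
theorem exists_aut : ∃ α : MulAut G, ∀ x : G, α x = phi π x :=
  ⟨{ toFun := phi π
     invFun := phi π
     left_inv := phi_phi h2 h π hπz hπc hπa
     right_inv := phi_phi h2 h π hπz hπc hπa
     map_mul' := phi_mul h2 p h hp hh π hπz hπa }, fun _ => rfl⟩

include hp hh hπz hπa hπc in
theorem phi_gen (K : Subgroup G) (hK : ∀ x : G, phi π x * x⁻¹ ∈ K) (hK2 : commutator G ≤ K) :
    K = ⊤ := by
  rw [eq_top_iff]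
  intro g _
  have hg : g = g * (π g : G)⁻¹ * (π g : G) := by rw [inv_mul_cancel_right]
  rw [hg]
  refine mul_mem ?_ (hK2 (hπc g))
  set v : G := g * (π g : G)⁻¹ with hv
  have hm : (((π g)⁻¹ : Subgroup.center G) : G) ∈ commutator G := by
    rw [Subgroup.coe_inv]
    exact inv_mem (hπc g)
  have hpv : π v = 1 := by
    rw [hv, ← Subgroup.coe_inv, pi_mul_cen h2 h π hπz hπa _ _ hm, mul_inv_cancel]
  have h1 := hK v
  have e : phi π v * v⁻¹ = (v ^ 2)⁻¹ := by
    unfold phi
    rw [hpv, one_pow, Subgroup.coe_one, mul_one, pow_two]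
    exact (mul_inv_rev v v).symm
  rw [e] at h1
  have h3 := pow_mem (inv_mem h1) h
  rwa [inv_inv, ← pow_mul, hh, pow_succ, hp, one_mul] at h3

end add

/-- If `α` is an automorphism of `G` such that the elements `α(g)g⁻¹` together with the derived
subgroup generate `G`, then `G` is the derived subgroup of `G ⋊ ℤ`. -/
theorem comm_semidirect (α : MulAut G)
    (hα : ∀ K : Subgroup G, (∀ x : G, α x * x⁻¹ ∈ K) → commutator G ≤ K → K = ⊤) :
    ∃ (H : Type u) (_ : Group H), Nonempty (commutator H ≃* G) := by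
  refine ⟨SemidirectProduct G (Multiplicative ℤ) (zpowersHom (MulAut G) α), inferInstance, ?_⟩
  set φ := zpowersHom (MulAut G) α with hφ
  have hle : commutator (SemidirectProduct G (Multiplicative ℤ) φ) ≤
      (SemidirectProduct.inl : G →* SemidirectProduct G (Multiplicative ℤ) φ).range := by
    rw [SemidirectProduct.range_inl_eq_ker_rightHom, commutator_def, Subgroup.commutator_le]
    intro a _ b _
    rw [MonoidHom.mem_ker, map_commutatorElement, commutatorElement_eq_one_iff_mul_comm]
    exact mul_comm _ _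
  have hge : (SemidirectProduct.inl : G →* SemidirectProduct G (Multiplicative ℤ) φ).range ≤
      commutator (SemidirectProduct G (Multiplicative ℤ) φ) := by
    rw [MonoidHom.range_eq_map, Subgroup.map_le_iff_le_comap, top_le_iff]
    apply hα
    · intro x
      rw [Subgroup.mem_comap]
      have h1 : (SemidirectProduct.inl (φ (Multiplicative.ofAdd 1) x) :
          SemidirectProduct G (Multiplicative ℤ) φ) =
          SemidirectProduct.inr (Multiplicative.ofAdd 1) * SemidirectProduct.inl x *
            SemidirectProduct.inr (Multiplicative.ofAdd 1)⁻¹ := SemidirectProduct.inl_aut _ _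
      have h2 : φ (Multiplicative.ofAdd 1) = α := by
        rw [hφ, zpowersHom_apply]
        simp
      rw [h2] at h1
      rw [map_mul, h1, map_inv, map_inv]
      exact Subgroup.commutator_mem_commutator (Subgroup.mem_top _) (Subgroup.mem_top _)
    · rw [← Subgroup.map_le_iff_le_comap, commutator_def, Subgroup.map_commutator]
      exact Subgroup.commutator_mono le_top le_top
  have heq := le_antisymm hle hge
  exact ⟨(MulEquiv.subgroupCongr heq).trans
    (MonoidHom.ofInjective SemidirectProduct.inl_injective).symm⟩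

include h2 in
/-- Every group of class at most two and odd prime exponent is a derived subgroup. -/
theorem integrable (p : ℕ) (hpr : p.Prime) (hodd : p ≠ 2) (hp : ∀ x : G, x ^ p = 1) :
    ∃ (H : Type u) (_ : Group H), Nonempty (commutator H ≃* G) := by
  obtain ⟨k, hk⟩ := hpr.odd_of_ne_two hodd
  have hh : 2 * (k + 1) = p + 1 := by omega
  obtain ⟨π, h1, h3, h4⟩ := exists_proj h2 p (k + 1) hp hh hpr
  obtain ⟨α, hα⟩ := exists_aut h2 p (k + 1) hp hh π h3 h1 h4
  refine comm_semidirect α ?_
  intro K hK hK2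
  refine phi_gen h2 p (k + 1) hp hh π h3 h1 h4 K ?_ hK2
  intro x
  rw [← hα]
  exact hK x

end Pool.Agent.U171.Integral
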